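import Mathlib
import Pool.Agent.H933R3.Evas

set_option autoImplicit false

/-!
# Cones are non-evasive
-/

namespace Pool.Agent.R786.NL

open Finset Pool.Agent.H933R3

variable {V : Type} [DecidableEq V]

theorem cone_nonEvasive (v : V) : ∀ (n : ℕ) (K : Finset (Finset V)), K.card = n → IsCx K →
    (∀ σ ∈ K, insert v σ ∈ K) → NonEvasive K := by
  intro n
  induction n using Nat.strong_induction_on with
  | _ n ih =>
    intro K hn hK hc
    have hv : {v} ∈ K := by simpa using hc ∅ hK.1
    by_cases h : ∃ w, w ≠ v ∧ {w} ∈ K
    · obtain ⟨w, hwv, hw⟩ := h
      refine NonEvasive.step K w hw ?_ ?_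
      · refine ih (del K w).card ?_ (del K w) rfl (hK.del w) ?_
        · rw [← hn]
          apply card_lt_card
          refine ⟨fun σ hσ => (mem_del.1 hσ).1, fun hs => ?_⟩
          exact (mem_del.1 (hs hw)).2 (mem_singleton_self w)
        · intro σ hσ
          rw [mem_del] at hσ ⊢
          refine ⟨hc σ hσ.1, ?_⟩
          rw [mem_insert, not_or]
          exact ⟨hwv, hσ.2⟩
      · refine ih (link K w).card ?_ (link K w) rfl (hK.link hw) ?_
        · rw [← hn]
          apply card_lt_card
          refine ⟨fun σ hσ => ?_, fun hs => ?_⟩
          · exact hK.2 _ ((mem_link hK).1 hσ).2 _ (subset_insert w σ)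
          · exact ((mem_link hK).1 (hs hw)).1 (mem_singleton_self w)
        · intro σ hσ
          rw [mem_link hK] at hσ ⊢
          refine ⟨?_, ?_⟩
          · rw [mem_insert, not_or]
            exact ⟨hwv, hσ.1⟩
          · rw [Finset.insert_comm]
            exact hc _ hσ.2
    · push Not at h
      have hall : ∀ σ ∈ K, ∀ x ∈ σ, x = v := by
        intro σ hσ x hx
        by_contra hxv
        exact h x hxv (hK.2 σ hσ _ (singleton_subset_iff.2 hx))
      have : K = {∅, {v}} := by
        ext σ
        rw [mem_insert, mem_singleton]
        constructor
        · intro hσ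
          rcases σ.eq_empty_or_nonempty with h1 | ⟨x, hx⟩
          · exact Or.inl h1
          · right
            apply Subset.antisymm
            · intro y hy
              rw [mem_singleton]
              exact hall σ hσ y hy
            · rw [singleton_subset_iff, ← hall σ hσ x hx]
              exact hx
        · rintro (rfl | rfl)
          · exact hK.1
          · exact hv
      rw [this]
      exact NonEvasive.point v

end Pool.Agent.R786.NL
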