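import Mathlib
import Pool.Agent.H933R3.Ball

set_option autoImplicit false

/-!
# Joins with a simplex and sequences of bistellar moves

Adapted from `Pool.Agent.Helper175.NS.Mask` (vertices `0, …, 13`, auxiliary vertex `14`).
-/

namespace Pool.Agent.R786.NL

open Finset Pool.Agent.Helper175.NS Pool.Agent.H933R3

/-- the join of the complex generated by `M` with the simplex `τ` -/
def J (M : Finset (Finset ℕ)) (τ : Finset ℕ) : Finset (Finset ℕ) := M.image (fun β => β ∪ τ)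

theorem mem_J {M : Finset (Finset ℕ)} {τ A : Finset ℕ} : A ∈ J M τ ↔ ∃ β ∈ M, β ∪ τ = A := by
  rw [J, mem_image]

theorem star_J (M : Finset (Finset ℕ)) (τ ρ : Finset ℕ) (v : ℕ) (h : ∀ n ∈ ρ, n ∉ τ) :
    star (J M τ) ρ v = J (star M ρ v) τ := by
  have key2 : ∀ β : Finset ℕ, ρ ⊆ β ∪ τ → ρ ⊆ β := by
    intro β hρβ n hn
    rcases mem_union.1 (hρβ hn) with h1 | h1
    · exact h1
    · exact absurd h1 (h n hn)
  have key3 : ∀ β : Finset ℕ, ∀ z ∈ ρ,
      insert v ((β ∪ τ).erase z) = insert v (β.erase z) ∪ τ := by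
    intro β z hz
    have h1 := h z hz
    ext n
    simp only [mem_insert, mem_erase, mem_union]
    constructor
    · rintro (h2 | ⟨h2, h3 | h3⟩)
      · exact Or.inl (Or.inl h2)
      · exact Or.inl (Or.inr ⟨h2, h3⟩)
      · exact Or.inr h3
    · rintro ((h2 | ⟨h2, h3⟩) | h2)
      · exact Or.inl h2
      · exact Or.inr ⟨h2, Or.inl h3⟩
      · refine Or.inr ⟨?_, Or.inr h2⟩
        rintro rfl
        exact h1 h2
  ext A
  constructor
  · intro hA
    rw [mem_star] at hA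
    rw [mem_J]
    rcases hA with ⟨h1, h2⟩ | ⟨A', h1, h2, z, hz, rfl⟩
    · obtain ⟨β, h5, rfl⟩ := mem_J.1 h1
      refine ⟨β, mem_star.2 (Or.inl ⟨h5, ?_⟩), rfl⟩
      intro h6
      exact h2 (h6.trans subset_union_left)
    · obtain ⟨β, h5, rfl⟩ := mem_J.1 h1
      exact ⟨insert v (β.erase z), mem_star.2 (Or.inr ⟨β, h5, key2 β h2, z, hz, rfl⟩),
        (key3 β z hz).symm⟩
  · intro hA
    rw [mem_J] at hA
    rw [mem_star]
    obtain ⟨γ, h3, rfl⟩ := hA
    rcases mem_star.1 h3 with ⟨h4, h5⟩ | ⟨β, h4, h5, z, hz, rfl⟩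
    · exact Or.inl ⟨mem_J.2 ⟨γ, h4, rfl⟩, fun h6 => h5 (key2 γ h6)⟩
    · exact Or.inr ⟨β ∪ τ, mem_J.2 ⟨β, h4, rfl⟩, h5.trans subset_union_left, z, hz, key3 β z hz⟩

theorem step_homeo (M M' : Finset (Finset ℕ)) (τ ρ ρ' : Finset ℕ) (hne : ρ.Nonempty)
    (hne' : ρ'.Nonempty) (hτ : ∀ n ∈ τ, 15 ≤ n)
    (hρ : ∀ n ∈ ρ, n < 14) (hρ' : ∀ n ∈ ρ', n < 14)
    (hM : ∀ β ∈ M, 14 ∉ β) (hM' : ∀ β ∈ M', 14 ∉ β)
    (heq : star M ρ 14 = star M' ρ' 14) :
    Nonempty (Sp (J M' τ) ≃ₜ Sp (J M τ)) := by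
  have key : ∀ N : Finset (Finset ℕ), (∀ β ∈ N, 14 ∉ β) → ∀ F ∈ J N τ, 14 ∉ F := by
    intro N hN F hF
    obtain ⟨β, h2, rfl⟩ := mem_J.1 hF
    rw [mem_union, not_or]
    exact ⟨hN β h2, fun h => by have := hτ 14 h; omega⟩
  obtain ⟨e1⟩ := star_homeo (J M τ) ρ 14 hne (key M hM) (fun h => by have := hρ 14 h; omega)
  obtain ⟨e2⟩ := star_homeo (J M' τ) ρ' 14 hne' (key M' hM')
    (fun h => by have := hρ' 14 h; omega)
  rw [star_J M τ ρ 14 (fun n hn h => by have := hρ n hn; have := hτ n h; omega)] at e1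
  rw [star_J M' τ ρ' 14 (fun n hn h => by have := hρ' n hn; have := hτ n h; omega), ← heq] at e2
  exact ⟨e2.symm.trans e1⟩

/-! ### Masks -/

/-- the set with a given bit mask -/
def dc (m : ℕ) : Finset ℕ := (range 15).filter (fun i => m.testBit i = true)

theorem mem_dc {m n : ℕ} : n ∈ dc m ↔ n < 15 ∧ m.testBit n = true := by
  rw [dc, mem_filter, mem_range]

def dcL (l : List ℕ) : Finset (Finset ℕ) := (l.map dc).toFinset

theorem mem_dcL {l : List ℕ} {A : Finset ℕ} : A ∈ dcL l ↔ ∃ m ∈ l, dc m = A := by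
  rw [dcL, List.mem_toFinset, List.mem_map]

def bts (m : ℕ) : List ℕ := (List.range 15).filter (fun i => m.testBit i)

theorem mem_bts {m n : ℕ} : n ∈ bts m ↔ n ∈ dc m := by
  rw [bts, List.mem_filter, List.mem_range, mem_dc]

def starB (l : List ℕ) (ρ v : ℕ) : List ℕ :=
  l.flatMap (fun m => if m &&& ρ = ρ then (bts ρ).map (fun z => (m ^^^ 2 ^ z) ||| 2 ^ v) else [m])

theorem land_eq {m ρ : ℕ} (hρ : ρ < 16384) : m &&& ρ = ρ ↔ dc ρ ⊆ dc m := by
  constructor
  · intro h n hn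
    rw [mem_dc] at hn ⊢
    refine ⟨hn.1, ?_⟩
    have h1 := congrArg (fun k => Nat.testBit k n) h
    simp only [Nat.testBit_land, hn.2, Bool.and_true] at h1
    exact h1
  · intro h
    apply Nat.eq_of_testBit_eq
    intro i
    rw [Nat.testBit_land]
    rcases Nat.lt_or_ge i 15 with hi | hi
    · cases h1 : ρ.testBit i with
      | false => simp
      | true =>
        have h2 := h (mem_dc.2 ⟨hi, h1⟩)
        rw [mem_dc] at h2
        simp [h2.2]
    · have h1 : ρ.testBit i = false := by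
        apply Nat.testBit_eq_false_of_lt
        calc ρ < 2 ^ 14 := by norm_num; exact hρ
          _ ≤ 2 ^ i := Nat.pow_le_pow_right (by norm_num) (by omega)
      simp [h1]

theorem dc_swap {m z v : ℕ} (hz : z ∈ dc m) (hv : v < 15) (hzv : z ≠ v) :
    dc ((m ^^^ 2 ^ z) ||| 2 ^ v) = insert v ((dc m).erase z) := by
  rw [mem_dc] at hz
  ext n
  rw [mem_insert, mem_erase, mem_dc, mem_dc, Nat.testBit_lor, Nat.testBit_xor,
    Nat.testBit_two_pow, Nat.testBit_two_pow]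
  by_cases h1 : n = v
  · subst h1
    simp [hv]
  · by_cases h2 : n = z
    · subst h2
      simp [hz.2, h1, Ne.symm h1]
    · simp [h1, h2, Ne.symm h1, Ne.symm h2]

theorem dcL_starB (l : List ℕ) (ρ : ℕ) (hρ : ρ < 16384) :
    dcL (starB l ρ 14) = star (dcL l) (dc ρ) 14 := by
  have h13 : 14 ∉ dc ρ := by
    rw [mem_dc]
    rintro ⟨_, h⟩
    rw [Nat.testBit_eq_false_of_lt (by norm_num; exact hρ)] at h
    exact absurd h (by decide)
  ext A
  rw [mem_dcL, mem_star]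
  constructor
  · rintro ⟨m', hm', rfl⟩
    rw [starB, List.mem_flatMap] at hm'
    obtain ⟨m, hm, h1⟩ := hm'
    split_ifs at h1 with h2
    · rw [List.mem_map] at h1
      obtain ⟨z, hz, rfl⟩ := h1
      rw [mem_bts] at hz
      have h3 := (land_eq hρ).1 h2
      right
      refine ⟨dc m, mem_dcL.2 ⟨m, hm, rfl⟩, h3, z, hz, ?_⟩
      rw [dc_swap (v := 14) (h3 hz) (by norm_num) (fun h => h13 (by rw [← h]; exact hz))]
    · rw [List.mem_singleton] at h1
      subst h1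
      left
      exact ⟨mem_dcL.2 ⟨m', hm, rfl⟩, fun h => h2 ((land_eq hρ).2 h)⟩
  · rintro (⟨h1, h2⟩ | ⟨F, h1, h2, z, hz, rfl⟩)
    · obtain ⟨m, hm, rfl⟩ := mem_dcL.1 h1
      refine ⟨m, ?_, rfl⟩
      rw [starB, List.mem_flatMap]
      refine ⟨m, hm, ?_⟩
      rw [if_neg (fun h => h2 ((land_eq hρ).1 h))]
      exact List.mem_singleton_self _
    · obtain ⟨m, hm, rfl⟩ := mem_dcL.1 h1
      refine ⟨(m ^^^ 2 ^ z) ||| 2 ^ 14, ?_, ?_⟩
      · rw [starB, List.mem_flatMap]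
        refine ⟨m, hm, ?_⟩
        rw [if_pos ((land_eq hρ).2 h2), List.mem_map]
        exact ⟨z, mem_bts.2 hz, rfl⟩
      · rw [dc_swap (v := 14) (h2 hz) (by norm_num) (fun h => h13 (by rw [← h]; exact hz))]

def sameB (l l' : List ℕ) : Bool :=
  l.all (fun m => l'.contains m) && l'.all (fun m => l.contains m)

theorem dcL_of_sameB {l l' : List ℕ} (h : sameB l l' = true) : dcL l = dcL l' := by
  rw [sameB, Bool.and_eq_true, List.all_eq_true, List.all_eq_true] at h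
  ext A
  rw [mem_dcL, mem_dcL]
  constructor
  · rintro ⟨m, hm, rfl⟩
    exact ⟨m, by simpa using h.1 m hm, rfl⟩
  · rintro ⟨m, hm, rfl⟩
    exact ⟨m, by simpa using h.2 m hm, rfl⟩

def applyB (l : List ℕ) (ρ ρ' : ℕ) : List ℕ :=
  l.filter (fun m => !(decide (m &&& ρ = ρ))) ++ (bts ρ).map (fun z => (ρ ^^^ 2 ^ z) ||| ρ')

def okStep (l l' : List ℕ) (ρ ρ' : ℕ) : Bool :=
  sameB (starB l ρ 14) (starB l' ρ' 14) && l'.all (fun m => decide (m < 16384)) &&
    decide (ρ < 16384) && decide (ρ' < 16384) && decide (0 < ρ) && decide (0 < ρ')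

def chainB : List ℕ → List (ℕ × ℕ) → List ℕ → Bool
  | l, [], t => sameB l t
  | l, r :: ms, t => okStep l (applyB l r.1 r.2) r.1 r.2 && chainB (applyB l r.1 r.2) ms t

theorem dc_nonempty {ρ : ℕ} (h1 : ρ < 16384) (h2 : 0 < ρ) : (dc ρ).Nonempty := by
  by_contra hcon
  rw [not_nonempty_iff_eq_empty] at hcon
  have h3 : ρ = 0 := by
    apply Nat.eq_of_testBit_eq
    intro i
    rw [Nat.zero_testBit]
    by_contra h4
    rw [Bool.not_eq_false] at h4
    have h5 : i < 15 := by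
      by_contra h6
      rw [Nat.testBit_eq_false_of_lt (by
        calc ρ < 2 ^ 14 := by norm_num; exact h1
          _ ≤ 2 ^ i := Nat.pow_le_pow_right (by norm_num) (by omega))] at h4
      exact absurd h4 (by decide)
    have := mem_dc.2 ⟨h5, h4⟩
    rw [hcon] at this
    exact notMem_empty _ this
  omega

theorem dc_lt {m : ℕ} (h : m < 16384) : ∀ n ∈ dc m, n < 14 := by
  intro n hn
  rw [mem_dc] at hn
  by_contra hcon
  have h1 : n = 14 := by omega
  subst h1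
  rw [Nat.testBit_eq_false_of_lt (by norm_num; exact h)] at hn
  exact absurd hn.2 (by decide)

theorem chain_homeo (τ : Finset ℕ) (hτ : ∀ n ∈ τ, 15 ≤ n) (ms : List (ℕ × ℕ)) :
    ∀ (l t : List ℕ), (∀ m ∈ l, m < 16384) → chainB l ms t = true →
      Nonempty (Sp (J (dcL t) τ) ≃ₜ Sp (J (dcL l) τ)) := by
  induction ms with
  | nil =>
    intro l t _ h
    rw [chainB] at h
    rw [dcL_of_sameB h]
    exact ⟨Homeomorph.refl _⟩
  | cons r ms ih =>
    intro l t hl h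
    rw [chainB, Bool.and_eq_true] at h
    obtain ⟨h1, h2⟩ := h
    simp only [okStep, Bool.and_eq_true, decide_eq_true_eq, List.all_eq_true]
      at h1
    obtain ⟨⟨⟨⟨⟨h3, h4⟩, h5⟩, h6⟩, h7⟩, h8⟩ := h1
    obtain ⟨e1⟩ := ih (applyB l r.1 r.2) t h4 h2
    have h13 : ∀ l' : List ℕ, (∀ m ∈ l', m < 16384) → ∀ β ∈ dcL l', 14 ∉ β := by
      intro l' hl' β hβ hmem
      obtain ⟨m, hm, rfl⟩ := mem_dcL.1 hβ
      have := dc_lt (hl' m hm) 14 hmem
      omega
    have heq : star (dcL l) (dc r.1) 14 = star (dcL (applyB l r.1 r.2)) (dc r.2) 14 := by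
      rw [← dcL_starB l r.1 h5, ← dcL_starB _ r.2 h6]
      exact dcL_of_sameB h3
    obtain ⟨e2⟩ := step_homeo (dcL l) (dcL (applyB l r.1 r.2)) τ (dc r.1) (dc r.2)
      (dc_nonempty h5 h7) (dc_nonempty h6 h8) hτ
      (dc_lt h5) (dc_lt h6) (h13 l hl) (h13 _ h4) heq
    exact ⟨e1.trans e2⟩

/-- the join of two tetrahedra with a common triangle and a simplex is a ball -/
theorem base_ball (τ : Finset ℕ) (hτ : ∀ n ∈ τ, 15 ≤ n) (k : ℕ) (hk : τ.card = k) :
    Nonempty (Sp (J (dcL [29, 30]) τ) ≃ₜ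
      Metric.closedBall (0 : EuclideanSpace ℝ (Fin (3 + k))) 1) := by
  have h0 : star {dc 15} {0, 1} 4 = dcL [29, 30] := by decide +kernel
  have h4 : ∀ F ∈ J {dc 15} τ, 4 ∉ F := by
    intro F hF
    obtain ⟨β, h2, rfl⟩ := mem_J.1 hF
    rw [mem_singleton] at h2
    subst h2
    rw [mem_union, not_or]
    exact ⟨by decide, fun h => by have := hτ 4 h; omega⟩
  obtain ⟨e1⟩ := star_homeo (J {dc 15} τ) {0, 1} 4 (by simp) h4 (by decide)
  rw [star_J {dc 15} τ {0, 1} 4 (fun n hn h => by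
    have := hτ n h
    rw [mem_insert, mem_singleton] at hn
    omega), h0] at e1
  have h5 : J {dc 15} τ = {dc 15 ∪ τ} := by
    rw [J, image_singleton]
  rw [h5] at e1
  have hd : Disjoint (dc 15) τ := by
    rw [disjoint_left]
    intro n hn h
    have := hτ n h
    rw [mem_dc] at hn
    omega
  have hc : (dc 15).card = 4 := by decide
  obtain ⟨e2⟩ := simplex_ball (dc 15 ∪ τ) (3 + k) (by
    rw [card_union_of_disjoint hd, hc, hk]; omega)
  exact ⟨e1.trans e2⟩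

end Pool.Agent.R786.NL
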