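import Mathlib
import Pool.Agent.R786.NL.Join

set_option autoImplicit false

/-!
# A triangulated 3-ball with 14 vertices and 64 tetrahedra with a knotted spanning edge `{0, 1}`
-/

namespace Pool.Agent.R786.NL

open Finset Pool.Agent.Helper175.NS

/-- the facets of the 3-ball (bit masks of sets of vertices among `0, …, 13`) -/
def Bl : List ℕ :=
  [99, 163, 195, 353, 417, 525, 588, 674, 706, 712, 1046, 1286, 1348, 1376, 1440, 1545, 1672,
  1696, 2146, 2433, 2594, 2817, 2818, 3092, 3140, 3168, 3585, 3616, 4110, 4122, 4172, 4248,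
  4289, 4296, 4358, 4417, 4420, 4865, 4866, 5138, 6273, 6288, 7169, 7184, 8213, 8217, 8344,
  8709, 8770, 8772, 9225, 9352, 9474, 9600, 10260, 10306, 10308, 10384, 10498, 10624, 12801,
  12802, 13313, 13314]

/-- bistellar moves -/
def moves : List (ℕ × ℕ) :=
  [(29, 8192), (8220, 4096), (12308, 2048), (12300, 1024), (9228, 512), (1548, 64), (9220, 4608),
  (12292, 2560), (8204, 513), (14352, 128), (8712, 1025), (4612, 3072), (1540, 2112), (1036,
  4160), (12304, 136), (6148, 1040), (2564, 8256), (28, 4098), (12296, 1152), (14464, 256),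
  (12416, 1280), (5128, 192), (9728, 4097), (4116, 1026), (5248, 320), (3648, 32), (14336, 768),
  (5184, 260), (5124, 258), (5632, 2049), (5376, 8194), (6656, 257), (12544, 514), (8960, 2050),
  (10752, 66), (6400, 129), (2624, 34), (1096, 640), (1600, 160), (608, 130), (1216, 288),
  (4480, 65), (448, 33), (224, 3)]

theorem chain_ok : chainB [29, 30] moves Bl = true := by decide +kernel

theorem Bl_lt : ∀ m ∈ Bl, m < 16384 := by decide

/-- The join of the 3-ball with a simplex is a ball. -/
theorem Bl_ball (τ : Finset ℕ) (hτ : ∀ n ∈ τ, 15 ≤ n) (k : ℕ) (hk : τ.card = k) :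
    Nonempty (Sp (J (dcL Bl) τ) ≃ₜ
      Metric.closedBall (0 : EuclideanSpace ℝ (Fin (3 + k))) 1) := by
  obtain ⟨e1⟩ := chain_homeo τ hτ moves [29, 30] Bl (by decide) chain_ok
  obtain ⟨e2⟩ := base_ball τ hτ k hk
  exact ⟨e1.trans e2⟩

end Pool.Agent.R786.NL
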