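import Mathlib
import Pool.Agent.R786.NL.Data
import Pool.Agent.H933R3.Defs

set_option autoImplicit false

/-!
# The join of the 3-ball with a simplex with `k` vertices
-/

namespace Pool.Agent.R786.NL

open Finset Pool.Agent.Helper175.NS Pool.Agent.H933R3

/-- the facet given by the mask `m`: the vertices in `m` and all vertices `≥ 14` -/
def fac (k m : ℕ) : Finset (Fin (14 + k)) :=
  univ.filter (fun i => 14 ≤ (i : ℕ) ∨ m.testBit i = true)

theorem mem_fac {k m : ℕ} {i : Fin (14 + k)} : i ∈ fac k m ↔ 14 ≤ (i : ℕ) ∨ m.testBit i = true := by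
  simp [fac]

/-- the join of the 3-ball with the simplex with the vertices `14, …, 13 + k` -/
def KJ (k : ℕ) : Finset (Finset (Fin (14 + k))) :=
  univ.filter (fun σ => ∃ m ∈ Bl, σ ⊆ fac k m)

theorem mem_KJ {k : ℕ} {σ : Finset (Fin (14 + k))} : σ ∈ KJ k ↔ ∃ m ∈ Bl, σ ⊆ fac k m := by
  simp [KJ]

theorem isCx_KJ (k : ℕ) : IsCx (KJ k) := by
  constructor
  · exact mem_KJ.2 ⟨99, by decide, empty_subset _⟩
  · intro σ hσ τ hτ
    obtain ⟨m, hm, h⟩ := mem_KJ.1 hσ
    exact mem_KJ.2 ⟨m, hm, hτ.trans h⟩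

/-- the number of bits of `m` -/
def lowF (m : ℕ) : Finset ℕ := dc m

theorem Bl_card : ∀ m ∈ Bl, (dc m).card = 4 := by decide +kernel

theorem fac_image (k : ℕ) {m : ℕ} (hm : m < 16384) :
    (fac k m).image (fun i : Fin (14 + k) => (i : ℕ)) = dc m ∪ Ico 14 (14 + k) := by
  ext n
  rw [mem_image, mem_union, mem_Ico]
  constructor
  · rintro ⟨i, hi, rfl⟩
    have := i.2
    rcases mem_fac.1 hi with h | h
    · exact Or.inr ⟨h, this⟩
    · by_cases h14 : 14 ≤ (i : ℕ)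
      · exact Or.inr ⟨h14, this⟩
      · exact Or.inl (mem_dc.2 ⟨by omega, h⟩)
  · rintro (h | ⟨h1, h2⟩)
    · have := dc_lt hm n h
      exact ⟨⟨n, by omega⟩, mem_fac.2 (Or.inr (mem_dc.1 h).2), rfl⟩
    · exact ⟨⟨n, h2⟩, mem_fac.2 (Or.inl h1), rfl⟩

theorem fac_card (k : ℕ) {m : ℕ} (hm : m ∈ Bl) : (fac k m).card = k + 4 := by
  have h1 := fac_image k (Bl_lt m hm)
  have h2 := congrArg Finset.card h1
  rw [card_image_of_injective _ Fin.val_injective, card_union_of_disjoint, Bl_card m hm,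
    Nat.card_Ico] at h2
  · omega
  · rw [disjoint_left]
    intro n hn h
    have := dc_lt (Bl_lt m hm) n hn
    rw [mem_Ico] at h
    omega

theorem isFacet_iff {k : ℕ} {F : Finset (Fin (14 + k))} :
    IsFacet (KJ k) F ↔ ∃ m ∈ Bl, F = fac k m := by
  constructor
  · rintro ⟨h1, h2⟩
    obtain ⟨m, hm, h3⟩ := mem_KJ.1 h1
    exact ⟨m, hm, (h2 _ (mem_KJ.2 ⟨m, hm, Subset.refl _⟩) h3).symm⟩
  · rintro ⟨m, hm, rfl⟩
    refine ⟨mem_KJ.2 ⟨m, hm, Subset.refl _⟩, fun G hG hs => ?_⟩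
    obtain ⟨m', hm', h3⟩ := mem_KJ.1 hG
    apply (eq_of_subset_of_card_le hs ?_).symm
    have := card_le_card h3
    rw [fac_card k hm'] at this
    rw [fac_card k hm]
    exact this

/-- the renaming of the vertices -/
def ren (k : ℕ) (i : Fin (14 + k)) : ℕ := if (i : ℕ) < 14 then i else i + 1

theorem ren_injective (k : ℕ) : Function.Injective (ren k) := by
  intro i j h
  unfold ren at h
  apply Fin.ext
  split_ifs at h <;> omega

/-- the facets, as a finite set of finite sets -/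
def Fs (k : ℕ) : Finset (Finset (Fin (14 + k))) := (Bl.map (fac k)).toFinset

theorem mem_Fs {k : ℕ} {F : Finset (Fin (14 + k))} : F ∈ Fs k ↔ ∃ m ∈ Bl, fac k m = F := by
  rw [Fs, List.mem_toFinset, List.mem_map]

theorem fac_ren (k : ℕ) {m : ℕ} (hm : m < 16384) :
    (fac k m).image (ren k) = dc m ∪ Ico 15 (15 + k) := by
  ext n
  rw [mem_image, mem_union, mem_Ico]
  constructor
  · rintro ⟨i, hi, rfl⟩
    have := i.2
    unfold ren
    by_cases h14 : (i : ℕ) < 14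
    · rw [if_pos h14]
      rcases mem_fac.1 hi with h | h
      · omega
      · exact Or.inl (mem_dc.2 ⟨by omega, h⟩)
    · rw [if_neg h14]
      right
      omega
  · rintro (h | ⟨h1, h2⟩)
    · have := dc_lt hm n h
      refine ⟨⟨n, by omega⟩, mem_fac.2 (Or.inr (mem_dc.1 h).2), ?_⟩
      unfold ren
      rw [if_pos this]
    · refine ⟨⟨n - 1, by omega⟩, mem_fac.2 (Or.inl (by simp only; omega)), ?_⟩
      unfold ren
      rw [if_neg (by simp only; omega)]
      simp only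
      omega

theorem Fs_image (k : ℕ) : (Fs k).image (fun F => F.image (ren k)) = J (dcL Bl) (Ico 15 (15 + k)) := by
  ext A
  rw [mem_image, mem_J]
  constructor
  · rintro ⟨F, hF, rfl⟩
    obtain ⟨m, hm, rfl⟩ := mem_Fs.1 hF
    exact ⟨dc m, mem_dcL.2 ⟨m, hm, rfl⟩, (fac_ren k (Bl_lt m hm)).symm⟩
  · rintro ⟨β, hβ, rfl⟩
    obtain ⟨m, hm, rfl⟩ := mem_dcL.1 hβ
    exact ⟨fac k m, mem_Fs.2 ⟨m, hm, rfl⟩, fac_ren k (Bl_lt m hm)⟩

theorem realization_eq (k : ℕ) : realization (KJ k) = Sp (Fs k) := by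
  ext x
  constructor
  · rintro ⟨h0, h1, σ, hσ, h2⟩
    obtain ⟨m, hm, h3⟩ := mem_KJ.1 hσ
    refine ⟨h0, fac k m, mem_Fs.2 ⟨m, hm, rfl⟩, fun i hi => h2 i (fun h => hi (h3 h)), ?_⟩
    rw [← h1]
    exact sum_subset (subset_univ _) (fun i _ hi => h2 i (fun h => hi (h3 h)))
  · rintro ⟨h0, F, hF, h1, h2⟩
    obtain ⟨m, hm, rfl⟩ := mem_Fs.1 hF
    refine ⟨h0, ?_, fac k m, mem_KJ.2 ⟨m, hm, Subset.refl _⟩, h1⟩
    rw [← h2]
    exact (sum_subset (subset_univ _) (fun i _ hi => h1 i hi)).symm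

/-- the complex is a triangulated ball of dimension `3 + k` -/
theorem isBall_KJ (k : ℕ) : IsBall (3 + k) (KJ k) := by
  unfold IsBall
  rw [realization_eq]
  obtain ⟨e1⟩ := relabel_homeo (Fs k) (ren k) univ (fun F _ => subset_univ F)
    (ren_injective k).injOn
  rw [Fs_image] at e1
  obtain ⟨e2⟩ := Bl_ball (Ico 15 (15 + k)) (fun n hn => (mem_Ico.1 hn).1) k
    (by rw [Nat.card_Ico]; omega)
  exact ⟨e1.symm.trans e2⟩

end Pool.Agent.R786.NL
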