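import Mathlib
import Pool.Agent.R786.NL.Cplx
import Pool.Agent.Y364.NL.Abs

set_option autoImplicit false

/-!
# The complex is not locally constructible

The local system comes from a homomorphism of the group of the trefoil onto the group of the
permutations of three points.
-/

namespace Pool.Agent.R786.NL

open Finset Pool.Agent.H933R3 Pool.Agent.Y364.NL

/-- transition functions along the edges (only the nontrivial ones are listed) -/
def tab : List (ℕ × (Fin 3 → Fin 3)) :=
  [(36, ![2, 1, 0]), (40, ![1, 0, 2]), (42, ![1, 0, 2]), (43, ![2, 1, 0]), (45, ![2, 1, 0]), (66,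
  ![2, 1, 0]), (74, ![2, 0, 1]), (86, ![1, 0, 2]), (91, ![1, 2, 0]), (101, ![1, 0, 2]), (104,
  ![1, 0, 2]), (106, ![1, 0, 2]), (107, ![2, 1, 0]), (109, ![2, 1, 0]), (130, ![1, 0, 2]), (134,
  ![1, 0, 2]), (137, ![2, 0, 1]), (140, ![1, 0, 2]), (152, ![1, 2, 0]), (155, ![1, 2, 0]), (156,
  ![0, 2, 1]), (157, ![2, 1, 0]), (162, ![1, 0, 2]), (164, ![1, 2, 0]), (166, ![1, 0, 2]), (171,
  ![1, 2, 0]), (172, ![1, 2, 0]), (178, ![2, 1, 0]), (181, ![2, 0, 1]), (182, ![2, 1, 0]), (185,
  ![2, 0, 1]), (186, ![2, 0, 1]), (200, ![1, 0, 2]), (201, ![0, 2, 1]), (202, ![2, 0, 1]), (205,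
  ![2, 0, 1]), (210, ![2, 1, 0]), (214, ![2, 1, 0]), (217, ![2, 1, 0]), (220, ![1, 2, 0])]

def psiN (u v : ℕ) (c : Fin 3) : Fin 3 :=
  if u < 16 ∧ v < 16 then
    match tab.lookup (16 * u + v) with
    | some p => p c
    | none => c
  else c

/-- the regular vertices -/
def QN (u : ℕ) : Prop := 2 ≤ u ∧ u < 14

instance : DecidablePred QN := fun n => by unfold QN; infer_instance

theorem chk_id : ∀ m ∈ Bl, ∀ u ∈ bts m, QN u → ∀ c, psiN u u c = c := by decide +kernel

theorem chk_coc : ∀ m ∈ Bl, ∀ u ∈ bts m, QN u → ∀ v ∈ bts m, QN v → ∀ w ∈ bts m, QN w →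
    ∀ c, psiN v w (psiN u v c) = psiN u w c := by decide +kernel

theorem chk_col : ∀ m ∈ Bl, 0 ∈ bts m → 1 ∈ bts m → ∀ u ∈ bts m, QN u →
    (u = 5 ∨ u = 6 ∨ u = 7) ∧ ∀ v ∈ bts m, QN v → psiN u v 2 = 2 := by decide +kernel

section

variable (k : ℕ)

def psi (u v : Fin (14 + k)) (c : Fin 3) : Fin 3 := psiN u v c

def Q (u : Fin (14 + k)) : Prop := QN u

/-- the exceptional face of codimension two -/
def A0 : Finset (Fin (14 + k)) := univ.filter (fun i => (i : ℕ) < 2 ∨ 14 ≤ (i : ℕ))

variable {k}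

theorem mem_A0 {i : Fin (14 + k)} : i ∈ A0 k ↔ ¬ Q k i := by
  unfold A0 Q QN
  rw [mem_filter]
  simp only [mem_univ, true_and]
  omega

theorem A0_card : (A0 k).card = k + 2 := by
  have h1 : (A0 k).image (fun i : Fin (14 + k) => (i : ℕ)) = {0, 1} ∪ Ico 14 (14 + k) := by
    ext n
    rw [mem_image, mem_union, mem_Ico, mem_insert, mem_singleton]
    unfold A0
    constructor
    · rintro ⟨i, hi, rfl⟩
      have := i.2
      rw [mem_filter] at hi
      have h := hi.2
      omega
    · intro h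
      refine ⟨⟨n, by omega⟩, ?_, rfl⟩
      rw [mem_filter]
      refine ⟨mem_univ _, ?_⟩
      show n < 2 ∨ 14 ≤ n
      omega
  have h2 := congrArg Finset.card h1
  rw [card_image_of_injective _ Fin.val_injective, card_union_of_disjoint, Nat.card_Ico] at h2
  · have h3 : ({0, 1} : Finset ℕ).card = 2 := by decide
    omega
  · rw [disjoint_left]
    intro n hn h
    rw [mem_Ico] at h
    rw [mem_insert, mem_singleton] at hn
    omega

theorem mem_bts_of {m : ℕ} {u : Fin (14 + k)} (hu : u ∈ fac k m) (hQ : Q k u) :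
    (u : ℕ) ∈ bts m := by
  unfold Q QN at hQ
  rw [mem_bts, mem_dc]
  rcases mem_fac.1 hu with h | h
  · omega
  · exact ⟨by omega, h⟩

theorem mem_bts_A0 {m : ℕ} (h : A0 k ⊆ fac k m) : 0 ∈ bts m ∧ 1 ∈ bts m := by
  constructor
  · have h1 : (⟨0, by omega⟩ : Fin (14 + k)) ∈ fac k m := h (mem_A0.2 (by unfold Q QN; simp))
    rcases mem_fac.1 h1 with h2 | h2
    · simp at h2
    · exact mem_bts.2 (mem_dc.2 ⟨by norm_num, h2⟩)
  · have h1 : (⟨1, by omega⟩ : Fin (14 + k)) ∈ fac k m := h (mem_A0.2 (by unfold Q QN; simp))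
    rcases mem_fac.1 h1 with h2 | h2
    · simp at h2
    · exact mem_bts.2 (mem_dc.2 ⟨by norm_num, h2⟩)

theorem exists_insert {R : Finset (Fin (14 + k))} (h : A0 k ⊆ R) (hc : R.card = 3 + k) :
    ∃ u, Q k u ∧ R = insert u (A0 k) := by
  have h1 : (R \ A0 k).card = 1 := by
    rw [card_sdiff_of_subset h, A0_card]
    omega
  obtain ⟨u, hu⟩ := card_eq_one.1 h1
  have h2 : u ∈ R \ A0 k := by rw [hu]; exact mem_singleton_self u
  rw [mem_sdiff, mem_A0, not_not] at h2
  refine ⟨u, h2.2, ?_⟩
  rw [← sdiff_union_of_subset h, hu]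
  rfl

theorem val_cases {F : Finset (Fin (14 + k))} (hF : IsFacet (KJ k) F) (h : A0 k ⊆ F)
    {u : Fin (14 + k)} (hu : u ∈ F) (hQ : Q k u) :
    (u : ℕ) = 5 ∨ (u : ℕ) = 6 ∨ (u : ℕ) = 7 := by
  obtain ⟨m, hm, rfl⟩ := isFacet_iff.1 hF
  obtain ⟨h0, h1⟩ := mem_bts_A0 h
  exact (chk_col m hm h0 h1 u (mem_bts_of hu hQ) hQ).1

theorem loc_KJ : Loc (3 + k) (KJ k) (Q k) (psi k) (A0 k) (fun _ => 2) where
  id := by
    intro F hF u hu hQ c
    obtain ⟨m, hm, rfl⟩ := isFacet_iff.1 hF
    exact chk_id m hm u (mem_bts_of hu hQ) hQ c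
  coc := by
    intro F hF u hu hQu v hv hQv w hw hQw c
    obtain ⟨m, hm, rfl⟩ := isFacet_iff.1 hF
    exact chk_coc m hm u (mem_bts_of hu hQu) hQu v (mem_bts_of hv hQv) hQv w (mem_bts_of hw hQw)
      hQw c
  reg := by
    intro A hA hne _
    by_contra hcon
    push Not at hcon
    apply hne
    apply eq_of_subset_of_card_le (fun u hu => mem_A0.2 (hcon u hu))
    rw [A0_card]
    omega
  regR := by
    intro R hR _
    by_contra hcon
    push Not at hcon
    have := card_le_card (fun u hu => mem_A0.2 (hcon u hu) : R ⊆ A0 k)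
    rw [A0_card] at this
    omega
  col := by
    intro F hF hA u hu hQu v hv hQv
    obtain ⟨m, hm, rfl⟩ := isFacet_iff.1 hF
    obtain ⟨h0, h1⟩ := mem_bts_A0 hA
    exact (chk_col m hm h0 h1 u (mem_bts_of hu hQu) hQu).2 v (mem_bts_of hv hQv) hQv
  cyc := by
    intro F F' R hF hF' hne hR hAR hRF hRF' G hG1 hG2 R' hAR' hR' hX
    obtain ⟨X, hX, hR'X⟩ := hX
    obtain ⟨R1, hR1G, hAR1, hR1c, hR1F, hR1R⟩ := hG1
    obtain ⟨R2, hR2G, hAR2, hR2c, hR2F, hR2R⟩ := hG2
    obtain ⟨u, hQu, hRu⟩ := exists_insert hAR hR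
    obtain ⟨u1, hQ1, hRu1⟩ := exists_insert hAR1 hR1c
    obtain ⟨u2, hQ2, hRu2⟩ := exists_insert hAR2 hR2c
    obtain ⟨u', hQ', hRu'⟩ := exists_insert hAR' hR'
    have huR : u ∈ R := by rw [hRu]; exact mem_insert_self _ _
    have hu1R : u1 ∈ R1 := by rw [hRu1]; exact mem_insert_self _ _
    have hu2R : u2 ∈ R2 := by rw [hRu2]; exact mem_insert_self _ _
    have hu'R : u' ∈ R' := by rw [hRu']; exact mem_insert_self _ _
    have c0 := val_cases hF (hAR.trans hRF) (hRF huR) hQu
    have c1 := val_cases hF (hAR.trans hRF) (hR1F hu1R) hQ1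
    have c2 := val_cases hF' (hAR.trans hRF') (hR2F hu2R) hQ2
    have c3 := val_cases hX (hAR'.trans hR'X) (hR'X hu'R) hQ'
    have n1 : u1 ≠ u := by
      rintro rfl
      exact hR1R (hRu1.trans hRu.symm)
    have n2 : u2 ≠ u := by
      rintro rfl
      exact hR2R (hRu2.trans hRu.symm)
    have n3 : u1 ≠ u2 := by
      rintro rfl
      apply hne
      have hc : (insert u1 R).card = k + 4 := by
        rw [card_insert_of_notMem, hR]
        · omega
        · rw [hRu, mem_insert, not_or]
          exact ⟨n1, fun h => mem_A0.1 h hQ1⟩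
      have e1 : insert u1 R = F := by
        obtain ⟨m, hm, hFm⟩ := isFacet_iff.1 hF
        apply eq_of_subset_of_card_le (insert_subset (hR1F hu1R) hRF)
        rw [hc, hFm, fac_card k hm]
      have e2 : insert u1 R = F' := by
        obtain ⟨m, hm, hFm⟩ := isFacet_iff.1 hF'
        apply eq_of_subset_of_card_le (insert_subset (hR2F hu2R) hRF')
        rw [hc, hFm, fac_card k hm]
      exact e1.symm.trans e2
    have n1' : (u1 : ℕ) ≠ u := fun h => n1 (Fin.ext h)
    have n2' : (u2 : ℕ) ≠ u := fun h => n2 (Fin.ext h)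
    have n3' : (u1 : ℕ) ≠ u2 := fun h => n3 (Fin.ext h)
    have hc : (u' : ℕ) = u ∨ (u' : ℕ) = u1 ∨ (u' : ℕ) = u2 := by omega
    rcases hc with h | h | h
    · rw [hRu', Fin.ext h, ← hRu]
      exact mem_insert_self _ _
    · rw [hRu', Fin.ext h, ← hRu1]
      exact mem_insert_of_mem hR1G
    · rw [hRu', Fin.ext h, ← hRu2]
      exact mem_insert_of_mem hR2G

/-- the ridge given by a mask -/
theorem ridge_card {m : ℕ} (hm : m < 16384) (hc : (dc m).card = 3) :
    (fac k m).card = 3 + k := by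
  have h1 := fac_image k hm
  have h2 := congrArg Finset.card h1
  rw [card_image_of_injective _ Fin.val_injective, card_union_of_disjoint, hc,
    Nat.card_Ico] at h2
  · omega
  · rw [disjoint_left]
    intro n hn h
    have := dc_lt hm n hn
    rw [mem_Ico] at h
    omega

theorem fac_and_left {m m' : ℕ} : fac k (m &&& m') ⊆ fac k m := by
  intro i hi
  rw [mem_fac] at hi ⊢
  rw [Nat.testBit_land, Bool.and_eq_true] at hi
  exact hi.imp id And.left

theorem fac_and_right {m m' : ℕ} : fac k (m &&& m') ⊆ fac k m' := by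
  intro i hi
  rw [mem_fac] at hi ⊢
  rw [Nat.testBit_land, Bool.and_eq_true] at hi
  exact hi.imp id And.right

/-- the vertex with number `u` -/
def vx (k u : ℕ) : Fin (14 + k) := if h : u < 14 then ⟨u, by omega⟩ else ⟨0, by omega⟩

theorem vx_val {u : ℕ} (h : u < 14) : (vx k u : ℕ) = u := by
  unfold vx
  rw [dif_pos h]

theorem not_lc_KJ : ¬ IsLC (3 + k) (KJ k) := by
  refine not_lc loc_KJ ?_ (isCx_KJ k).2 ?_
  · intro F hF
    obtain ⟨m, hm, hFm⟩ := isFacet_iff.1 hF
    by_contra hcon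
    push Not at hcon
    have := card_le_card (fun u hu => mem_A0.2 (hcon u hu) : F ⊆ A0 k)
    rw [A0_card, hFm, fac_card k hm] at this
    omega
  · rintro ⟨g, hg1, hg2⟩
    have step : ∀ m u m' u' : ℕ, m ∈ Bl → m' ∈ Bl → m.testBit u = true → m.testBit u' = true →
        m'.testBit u' = true → QN u → QN u' → (m &&& m') < 16384 → (dc (m &&& m')).card = 3 →
        g (fac k m') (vx k u') = psiN u u' (g (fac k m) (vx k u)) := by
      intro m u m' u' hm hm' h1 h2 h3 hu hu' h4 h5
      have v1 := vx_val (k := k) hu.2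
      have v2 := vx_val (k := k) hu'.2
      have e1 := hg1 (fac k m) (isFacet_iff.2 ⟨m, hm, rfl⟩) (vx k u)
        (mem_fac.2 (Or.inr (by rw [v1]; exact h1))) (by unfold Q; rw [v1]; exact hu) (vx k u')
        (mem_fac.2 (Or.inr (by rw [v2]; exact h2))) (by unfold Q; rw [v2]; exact hu')
      have e2 := hg2 (fac k (m &&& m')) (ridge_card h4 h5) (fac k m) (fac k m')
        (isFacet_iff.2 ⟨m, hm, rfl⟩) (isFacet_iff.2 ⟨m', hm', rfl⟩) fac_and_left fac_and_right
        (vx k u') (mem_fac.2 (Or.inr (by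
          rw [v2, Nat.testBit_land, h2, h3]; rfl))) (by unfold Q; rw [v2]; exact hu')
      rw [← e2, e1]
      unfold psi
      rw [v1, v2]
    have s1 := step 163 5 417 5 (by decide) (by decide) (by decide) (by decide) (by decide)
      (by decide) (by decide) (by decide) (by decide)
    have s2 := step 417 5 2433 7 (by decide) (by decide) (by decide) (by decide) (by decide)
      (by decide) (by decide) (by decide) (by decide)
    have s3 := step 2433 7 2817 8 (by decide) (by decide) (by decide) (by decide) (by decide)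
      (by decide) (by decide) (by decide) (by decide)
    have s4 := step 2817 8 2818 8 (by decide) (by decide) (by decide) (by decide) (by decide)
      (by decide) (by decide) (by decide) (by decide)
    have s5 := step 2818 8 2594 9 (by decide) (by decide) (by decide) (by decide) (by decide)
      (by decide) (by decide) (by decide) (by decide)
    have s6 := step 2594 9 674 5 (by decide) (by decide) (by decide) (by decide) (by decide)
      (by decide) (by decide) (by decide) (by decide)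
    have s7 := step 674 5 163 5 (by decide) (by decide) (by decide) (by decide) (by decide)
      (by decide) (by decide) (by decide) (by decide)
    rw [s6, s5, s4, s3, s2, s1] at s7
    clear step hg1 hg2
    generalize g (fac k 163) (vx k 5) = c at s7
    revert c
    decide

end

end Pool.Agent.R786.NL
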