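import Mathlib
import Pool.Agent.R786.NL.NotLC
import Pool.Agent.R786.NL.Cone
import Pool.Agent.Y364.E3.Tree

set_option autoImplicit false

/-!
# Non-evasive balls that are not locally constructible, in all dimensions `≥ 4`
-/

namespace Pool.Agent.R786.NL

open Finset Pool.Agent.H933R3 Pool.Agent.Y364.E3

section

variable {V : Type} [DecidableEq V] {d : ℕ} {K : Finset (Finset V)}

theorem lcStage_of_tree {𝓕 T : Finset (Finset V)} (h : TreeStage d K 𝓕 T) : LCStage d K 𝓕 T := by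
  induction h with
  | start F hF => exact LCStage.start F hF
  | attach 𝓕 T F F' R h hF hF' hn hR h1 h2 hT ih =>
    exact LCStage.attach 𝓕 T F F' R ih hF hF' hn hR h1 h2 hT

theorem lcStage_of_glue {𝓕 T G : Finset (Finset V)} (hT : LCStage d K 𝓕 T)
    (h : GlueStage d 𝓕 T G) : LCStage d K 𝓕 G := by
  induction h with
  | start => exact hT
  | glue G F F' R A h hF hF' hne hR h1 h2 hG hA hAR hs ih =>
    exact LCStage.glue 𝓕 G F F' R A ih hF hF' hne hR h1 h2 hG hA hAR hs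

theorem isLC_of_isTreeLC (h : IsTreeLC d K) : IsLC d K := by
  obtain ⟨h1, h2, 𝓕, T, G, h3, h4, h5, h6⟩ := h
  exact ⟨h1, h2, 𝓕, G, lcStage_of_glue (lcStage_of_tree h3) h4, h5, h6⟩

end

theorem nonEvasive_KJ (k : ℕ) (hk : 1 ≤ k) : NonEvasive (KJ k) := by
  refine cone_nonEvasive (⟨14, by omega⟩ : Fin (14 + k)) _ (KJ k) rfl (isCx_KJ k) ?_
  intro σ hσ
  obtain ⟨m, hm, h⟩ := mem_KJ.1 hσ
  exact mem_KJ.2 ⟨m, hm, insert_subset (mem_fac.2 (Or.inl le_rfl)) h⟩

/-- In every dimension `d ≥ 4` there is a non-evasive triangulated ball that is not locally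
constructible. -/
theorem main (d : ℕ) (hd : 4 ≤ d) : ∃ (n : ℕ) (K : Finset (Finset (Fin n))),
    IsCx K ∧ IsBall d K ∧ NonEvasive K ∧ ¬ IsTreeLC d K := by
  obtain ⟨k, rfl⟩ : ∃ k, d = 3 + k := ⟨d - 3, by omega⟩
  exact ⟨14 + k, KJ k, isCx_KJ k, isBall_KJ k, nonEvasive_KJ k (by omega),
    fun h => not_lc_KJ (isLC_of_isTreeLC h)⟩

end Pool.Agent.R786.NL
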